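import Pool.Agent.Work.MP_1c7b0d_cp.Final

/-!
# The regular cross-polytope of dimension at least five is not optimal (MP_1c7b0d_gt)

Proof (`Pool.Agent.Work.MP_1c7b0d_cp.Interface`): with `r = √d` the `2^d` facet normals of the
regular cross-polytope `A = {∑ |x i| ≤ r}` of inradius one are `ε / r`. Replace ONE of them,
`(1, ..., 1) / r`, by `e₀`. The new polytope is contained in `(A ∩ {x 0 ≤ 1}) ∪ R`, where `R` is the
part of space beyond the removed facet; `vol R ≤ 2 / (d - 2) * vol T`, `T` the part of `A` in the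
positive orthant, by a linear map of determinant `1 - d / 2`; and the part `x 0 > 1` of `A` contains
`2 ^ (d - 1)` reflected copies of `(1 - 1 / r) T + e₀`. Finally
`2 / (d - 2) < 2 ^ (d - 1) * (1 - 1 / r) ^ d` for `d ≥ 5`.
-/

set_option autoImplicit false

open MeasureTheory Pool.Agent.Work.MP_1c7b0d_gt

/-- For every `d ≥ 5` the regular cross-polytope of inradius one is `circ u` for `2 ^ d` distinct unit
vectors, and there are `2 ^ d` distinct unit vectors `w` for which `circ w` has smaller volume. -/
theorem Pool.Agent.Results.MP_1c7b0d_gt.CrossPolytope.result (d : ℕ) (hd : 5 ≤ d) :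
    ∃ u w : Fin (2 ^ d) → EuclideanSpace ℝ (Fin d),
      Function.Injective u ∧ (∀ i, ‖u i‖ = 1) ∧ circ u = {x | ∑ i, |x i| ≤ Real.sqrt d} ∧
      Function.Injective w ∧ (∀ i, ‖w i‖ = 1) ∧ volume (circ w) < volume (circ u) :=
  Pool.CP3.final d hd
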