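import Pool.Agent.Work.MP_1c7b0d_gt.Final

open MeasureTheory Pool.Agent.Work.MP_1c7b0d_gt

/-- The polytopes with `d + 2` facets of minimal volume circumscribed about the unit ball of
`d`-dimensional Euclidean space, `d = k + l` with `1 ≤ k ≤ l ≤ k + 1`: the minimal volume is the
product of the volumes of the regular simplices of dimensions `k` and `l` and inradius one; the
minimum is attained exactly when the outer unit normals split into the normals of two such
simplices lying in orthogonal subspaces; it is attained, and any two minimal bodies are congruent. -/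
theorem Pool.Agent.Results.MP_1c7b0d_gt.FacetsDPlusTwo.result
    (k l : ℕ) (hk : 1 ≤ k) (hkl : k ≤ l) (hlk : l ≤ k + 1) :
    (∀ u : Fin (k + l + 2) → EuclideanSpace ℝ (Fin (k + l)), (∀ i, ‖u i‖ = 1) →
      ENNReal.ofReal (sv k * sv l) ≤ volume (circ u) ∧
      (volume (circ u) = ENNReal.ofReal (sv k * sv l) ↔
        ∃ A : Finset (Fin (k + l + 2)), A.card = k + 1 ∧
          (∀ i ∈ A, ∀ j ∈ A, i ≠ j → inner ℝ (u i) (u j) = -1 / (k:ℝ)) ∧
          (∀ i, i ∉ A → ∀ j, j ∉ A → i ≠ j → inner ℝ (u i) (u j) = -1 / (l:ℝ)) ∧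
          (∀ i ∈ A, ∀ j, j ∉ A → inner ℝ (u i) (u j) = 0))) ∧
    (∃ u : Fin (k + l + 2) → EuclideanSpace ℝ (Fin (k + l)), (∀ i, ‖u i‖ = 1) ∧
      volume (circ u) = ENNReal.ofReal (sv k * sv l)) ∧
    (∀ u u' : Fin (k + l + 2) → EuclideanSpace ℝ (Fin (k + l)), (∀ i, ‖u i‖ = 1) → (∀ i, ‖u' i‖ = 1) →
      volume (circ u) = ENNReal.ofReal (sv k * sv l) → volume (circ u') = ENNReal.ofReal (sv k * sv l) →
      ∃ φ : EuclideanSpace ℝ (Fin (k + l)) ≃ₗᵢ[ℝ] EuclideanSpace ℝ (Fin (k + l)),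
        φ '' circ u = circ u') :=
  final k l hk hkl hlk
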