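import Pool.Agent.Work.MP_1c7b0d_lin.Final
import Pool.Agent.Work.MP_1c7b0d_lh73.Final

open MeasureTheory Pool.Agent.Work.MP_1c7b0d_gt

/-- The polytopes with `n = d + K` facets of minimal volume circumscribed about the unit ball of
`d`-dimensional Euclidean space, in the whole linear range `n ≤ (1 + 1/M) d` for an absolute constant
`M`, and also whenever `d ≥ 10^9 K²`. With `q = ⌊d/K⌋` and `r = d mod K` the minimal volume is `sv(q)^(K-r) sv(q+1)^r`, the volume of
the product of `K` regular simplices of inradius one, `K - r` of them of dimension `q` and `r` of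
dimension `q + 1`; the minimum is attained exactly when the outer unit normals split into `K` classes
of `q + 1` or `q + 2` vectors such that a class with `s` vectors consists of the normals of a regular
`(s-1)`-simplex (inner products `-1/(s-1)`) and vectors of different classes are orthogonal; it is
attained, and any two minimal bodies are congruent. -/
theorem Pool.Agent.Results.MP_1c7b0d_gt.LinearRange.result :
    ∃ M : ℕ, ∀ d K : ℕ, 1 ≤ K → (M * K ≤ d ∨ 10 ^ 9 * K ^ 2 ≤ d) →
    (∀ u : Fin (d + K) → EuclideanSpace ℝ (Fin d), (∀ i, ‖u i‖ = 1) →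
      ENNReal.ofReal (sv (d / K) ^ (K - d % K) * sv (d / K + 1) ^ (d % K)) ≤ volume (circ u) ∧
      (volume (circ u) = ENNReal.ofReal (sv (d / K) ^ (K - d % K) * sv (d / K + 1) ^ (d % K)) ↔
        ∃ p : Fin (d + K) → Fin K,
          (∀ b, (Finset.univ.filter (fun i => p i = b)).card = d / K + 1 ∨
            (Finset.univ.filter (fun i => p i = b)).card = d / K + 2) ∧
          (∀ i j, i ≠ j → p i = p j → inner ℝ (u i) (u j) =
            -1 / (((Finset.univ.filter (fun k => p k = p i)).card : ℝ) - 1)) ∧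
          (∀ i j, p i ≠ p j → inner ℝ (u i) (u j) = 0))) ∧
    (∃ u : Fin (d + K) → EuclideanSpace ℝ (Fin d), (∀ i, ‖u i‖ = 1) ∧
      volume (circ u) = ENNReal.ofReal (sv (d / K) ^ (K - d % K) * sv (d / K + 1) ^ (d % K))) ∧
    (∀ u u' : Fin (d + K) → EuclideanSpace ℝ (Fin d), (∀ i, ‖u i‖ = 1) → (∀ i, ‖u' i‖ = 1) →
      volume (circ u) = ENNReal.ofReal (sv (d / K) ^ (K - d % K) * sv (d / K + 1) ^ (d % K)) →
      volume (circ u') = ENNReal.ofReal (sv (d / K) ^ (K - d % K) * sv (d / K + 1) ^ (d % K)) →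
      ∃ φ : EuclideanSpace ℝ (Fin d) ≃ₗᵢ[ℝ] EuclideanSpace ℝ (Fin d),
        φ '' circ u = circ u') := by
  obtain ⟨M, hM⟩ := Pool.LIN.final
  exact ⟨M, fun d K hK hd => hd.elim (fun h => hM d K hK h) (fun h => Pool.LH73.final d K hK h)⟩
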