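import Pool.Agent.Work.MP_1c7b0d_lh60.FIN

open MeasureTheory Pool.Agent.Work.MP_1c7b0d_gt

/-- Sharp lower bound for the volume of a polytope with `n = d + K` facets circumscribed about the
unit ball of `d`-dimensional Euclidean space, for all `d, K ≥ 1`:
`vol ≥ (d/n)^(d/2) (n/K)^(n-K/2) / Γ(n/K)^K`, with equality exactly for the orthogonal products of
`K` congruent regular simplices of dimension `d/K` (so exactly when `K` divides `d`). For `K ∣ d` the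
bound is `(sv (d/K))^K` and it is attained; any two bodies with equality are congruent. -/
theorem Pool.Agent.Results.MP_1c7b0d_gt.SharpVolumeBound.result
    (d K : ℕ) (hd : 1 ≤ d) (hK : 1 ≤ K) :
    (∀ u : Fin (d + K) → EuclideanSpace ℝ (Fin d), (∀ i, ‖u i‖ = 1) →
      ENNReal.ofReal (((d:ℝ) / (d + K)) ^ ((d:ℝ) / 2) * (((d:ℝ) + K) / K) ^ ((d:ℝ) + K / 2)
        / Real.Gamma (((d:ℝ) + K) / K) ^ K) ≤ volume (circ u) ∧
      (volume (circ u) =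
          ENNReal.ofReal (((d:ℝ) / (d + K)) ^ ((d:ℝ) / 2) * (((d:ℝ) + K) / K) ^ ((d:ℝ) + K / 2)
            / Real.Gamma (((d:ℝ) + K) / K) ^ K) ↔
        ∃ p : Fin (d + K) → Fin K,
          (∀ i j, i ≠ j → p i = p j → inner ℝ (u i) (u j) = -(K:ℝ) / d) ∧
          (∀ i j, p i ≠ p j → inner ℝ (u i) (u j) = 0))) ∧
    (K ∣ d → ((d:ℝ) / (d + K)) ^ ((d:ℝ) / 2) * (((d:ℝ) + K) / K) ^ ((d:ℝ) + K / 2)
        / Real.Gamma (((d:ℝ) + K) / K) ^ K = sv (d / K) ^ K ∧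
      ∃ u : Fin (d + K) → EuclideanSpace ℝ (Fin d), (∀ i, ‖u i‖ = 1) ∧
        volume (circ u) = ENNReal.ofReal (sv (d / K) ^ K)) ∧
    (∀ u u' : Fin (d + K) → EuclideanSpace ℝ (Fin d), (∀ i, ‖u i‖ = 1) → (∀ i, ‖u' i‖ = 1) →
      volume (circ u) = ENNReal.ofReal (((d:ℝ) / (d + K)) ^ ((d:ℝ) / 2) *
        (((d:ℝ) + K) / K) ^ ((d:ℝ) + K / 2) / Real.Gamma (((d:ℝ) + K) / K) ^ K) →
      volume (circ u') = ENNReal.ofReal (((d:ℝ) / (d + K)) ^ ((d:ℝ) / 2) *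
        (((d:ℝ) + K) / K) ^ ((d:ℝ) + K / 2) / Real.Gamma (((d:ℝ) + K) / K) ^ K) →
      ∃ φ : EuclideanSpace ℝ (Fin d) ≃ₗᵢ[ℝ] EuclideanSpace ℝ (Fin d), φ '' circ u = circ u') := by
  obtain ⟨h1, h2, h3⟩ := Pool.LH60.top_fin d K hd hK
  refine ⟨h1, ?_, h3⟩
  intro hdvd
  obtain ⟨h4, u, hu, hv⟩ := h2 hdvd
  refine ⟨h4, u, hu, ?_⟩
  rw [hv, h4]
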